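import Pool.Graph.R_pool_sql_team_ae5b0c61.H39.RC4

set_option autoImplicit false

namespace Pool.Agent.KS6_77.Rectif

open Set Filter Topology TopologicalSpace unitInterval

/-- rectifiable spaces -/
def Rectifiable (X : Type*) [TopologicalSpace X] : Prop :=
  ∃ (φ : (X × X) ≃ₜ (X × X)) (e : X), (∀ p : X × X, (φ p).1 = p.1) ∧ ∀ x : X, φ (x, x) = (x, e)

/-- a regular locally completely regular space is completely regular -/
theorem local_cr {X : Type*} [TopologicalSpace X] [RegularSpace X]
    (h : ∀ x : X, ∃ U : Set X, IsOpen U ∧ x ∈ U ∧ CompletelyRegularSpace U) :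
    CompletelyRegularSpace X := by
  classical
  refine ⟨fun x K hK hx => ?_⟩
  obtain ⟨U, hU, hxU, hcr⟩ := h x
  obtain ⟨V0, hV0, hV0c, hV0W⟩ := exists_mem_nhds_isClosed_subset
    ((hU.inter hK.isOpen_compl).mem_nhds ⟨hxU, hx⟩)
  set V := interior V0 with hV
  have hVo : IsOpen V := isOpen_interior
  have hxV : x ∈ V := mem_interior_iff_mem_nhds.2 hV0
  have hVcl : closure V ⊆ U ∩ Kᶜ := (closure_minimal interior_subset hV0c).trans hV0W
  obtain ⟨f, hf, hf0, hf1⟩ := hcr.completely_regular ⟨x, hxU⟩ (Subtype.val ⁻¹' Vᶜ)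
    (hVo.isClosed_compl.preimage continuous_subtype_val) (fun h => h hxV)
  let F : X → I := fun y => if hy : y ∈ U then f ⟨y, hy⟩ else 1
  have hFU : ∀ y : U, F y = f y := fun y => by
    simp only [F]
    rw [dif_pos y.2]
  have hF1 : ∀ y, y ∉ V → F y = 1 := by
    intro y hy
    by_cases hyU : y ∈ U
    · rw [hFU ⟨y, hyU⟩]
      exact hf1 (show (⟨y, hyU⟩ : U) ∈ Subtype.val ⁻¹' Vᶜ from hy)
    · simp only [F]
      rw [dif_neg hyU]
  refine ⟨F, ?_, by rw [show x = ((⟨x, hxU⟩ : U) : X) from rfl, hFU]; exact hf0, ?_⟩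
  · rw [continuous_iff_continuousAt]
    intro y
    by_cases hyU : y ∈ U
    · have h1 : ContinuousOn F U := by
        rw [continuousOn_iff_continuous_domRestrict]
        have : U.domRestrict F = f := funext fun z => hFU z
        rw [this]
        exact hf
      exact h1.continuousAt (hU.mem_nhds hyU)
    · have h2 : y ∈ (closure V)ᶜ := fun h => hyU (hVcl h).1
      have h3 : F =ᶠ[𝓝 y] fun _ => 1 := by
        filter_upwards [isClosed_closure.isOpen_compl.mem_nhds h2] with z hz
        exact hF1 z fun h => hz (subset_closure h)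
      exact continuousAt_const.congr h3.symm
  · intro y hy
    exact hF1 y fun h => (hVcl (subset_closure h)).2 hy

/-- rectifiable spaces are homogeneous -/
theorem homog {X : Type*} [TopologicalSpace X] (h : Rectifiable X) (g k : X) :
    ∃ T : X ≃ₜ X, T g = k := by
  obtain ⟨φ, e, h1, h2⟩ := h
  have h3 : ∀ p : X × X, (φ.symm p).1 = p.1 := fun p => by
    have := h1 (φ.symm p)
    rw [φ.apply_symm_apply] at this
    exact this.symm
  have key : ∀ x : X, ∃ T : X ≃ₜ X, T x = e := by
    intro x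
    refine ⟨{ toFun := fun y => (φ (x, y)).2
              invFun := fun z => (φ.symm (x, z)).2
              left_inv := fun y => ?_
              right_inv := fun z => ?_
              continuous_toFun := ?_
              continuous_invFun := ?_ }, ?_⟩
    · have : (x, (φ (x, y)).2) = φ (x, y) := Prod.ext (h1 (x, y)).symm rfl
      show (φ.symm (x, (φ (x, y)).2)).2 = y
      rw [this, φ.symm_apply_apply]
    · have : (x, (φ.symm (x, z)).2) = φ.symm (x, z) := Prod.ext (h3 (x, z)).symm rfl
      show (φ (x, (φ.symm (x, z)).2)).2 = z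
      rw [this, φ.apply_symm_apply]
    · exact continuous_snd.comp (φ.continuous.comp (Continuous.prodMk_right x))
    · exact continuous_snd.comp (φ.symm.continuous.comp (Continuous.prodMk_right x))
    · show (φ (x, x)).2 = e
      rw [h2]
  obtain ⟨T, hT⟩ := key g
  obtain ⟨S, hS⟩ := key k
  exact ⟨T.trans S.symm, by
    show S.symm (T g) = k
    rw [hT, ← hS, S.symm_apply_apply]⟩

/-- in a Tychonoff space a `G_δ` point is a zero set -/
theorem zero_pt {Y : Type*} [TopologicalSpace Y] [T35Space Y] (y0 : Y)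
    (h : IsGδ ({y0} : Set Y)) : ∃ g : Y → ℝ, Continuous g ∧ ∀ y, g y = 0 ↔ y = y0 := by
  obtain ⟨U, hU, hU2⟩ := isGδ_iff_eq_iInter_nat.1 h
  have hy0 : ∀ n, y0 ∈ U n := fun n => by
    have : y0 ∈ ⋂ n, U n := by rw [← hU2]; rfl
    exact mem_iInter.1 this n
  choose f hf hf0 hf1 using fun n => CompletelyRegularSpace.completely_regular y0 (U n)ᶜ
    (hU n).isClosed_compl (fun h => h (hy0 n))
  have hs : ∀ y, Summable fun n : ℕ => (1 / 2 : ℝ) ^ n * (f n y : ℝ) := fun y => by
    refine Summable.of_nonneg_of_le (fun n => mul_nonneg (by positivity) (f n y).2.1)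
      (fun n => ?_) summable_geometric_two
    exact mul_le_of_le_one_right (by positivity) (f n y).2.2
  refine ⟨fun y => ∑' n : ℕ, (1 / 2 : ℝ) ^ n * (f n y : ℝ), ?_, fun y => ?_⟩
  · refine continuous_tsum (u := fun n : ℕ => (1 / 2 : ℝ) ^ n) (fun n => ?_)
      summable_geometric_two (fun n y => ?_)
    · exact continuous_const.mul (continuous_subtype_val.comp (hf n))
    · rw [Real.norm_eq_abs, abs_of_nonneg (mul_nonneg (by positivity) (f n y).2.1)]
      exact mul_le_of_le_one_right (by positivity) (f n y).2.2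
  · constructor
    · intro h0
      have h1 : ∀ n, (1 / 2 : ℝ) ^ n * (f n y : ℝ) = 0 := by
        have := (hasSum_zero_iff_of_nonneg (f := fun n : ℕ => (1 / 2 : ℝ) ^ n * (f n y : ℝ))
          (fun n => mul_nonneg (by positivity) (f n y).2.1)).1 (by
            have h3 := (hs y).hasSum
            have h0' : (∑' n : ℕ, (1 / 2 : ℝ) ^ n * (f n y : ℝ)) = 0 := h0
            rw [h0'] at h3
            exact h3)
        exact fun n => congrFun this n
      have h2 : y ∈ ⋂ n, U n := by
        rw [mem_iInter]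
        intro n
        by_contra hc
        have h3 := hf1 n hc
        have h4 := h1 n
        rw [h3] at h4
        simp at h4
      rw [← hU2] at h2
      exact h2
    · rintro rfl
      simp [hf0]

/-- the strong local failure of complete regularity -/
def Bad (X : Type) [TopologicalSpace X] : Prop :=
  (∀ U : Set X, IsOpen U → U.Nonempty → ¬ CompletelyRegularSpace U) ∧
  ∀ x : X, ∃ F : Set X, IsClosed F ∧ x ∉ F ∧
    ∀ (Y : Type) [TopologicalSpace Y] [T35Space Y] (f : X → Y), Continuous f →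
      IsGδ ({f x} : Set Y) → ∃ y ∈ F, f y = f x

open Pool.Agent.H39.RC in
theorem bad_G : Bad G := by
  have hr : Rectifiable G := rect
  constructor
  · rintro U hU ⟨u, hu⟩ hcr
    refine not_cr (local_cr fun x => ?_)
    obtain ⟨T, hT⟩ := homog hr x u
    refine ⟨T ⁻¹' U, hU.preimage T.continuous, by show T x ∈ U; rw [hT]; exact hu, ?_⟩
    have hi : IsInducing (fun y : T ⁻¹' U => (⟨T y.1, y.2⟩ : U)) := by
      refine IsInducing.of_comp (by fun_prop) continuous_subtype_val ?_
      exact T.isInducing.comp IsInducing.subtypeVal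
    exact hi.completelyRegularSpace
  · intro g
    obtain ⟨T, hT⟩ := homog hr g e
    set F0 : Set G := (interior {u | C ∅ 1 e u})ᶜ with hF0
    have hF0c : IsClosed F0 := isOpen_interior.isClosed_compl
    have heF : e ∉ F0 := fun h => h (mem_interior_iff_mem_nhds.2 (C_nhds _ _ _))
    refine ⟨T ⁻¹' F0, hF0c.preimage T.continuous, fun h => heF (by rw [← hT]; exact h), ?_⟩
    intro Y _ _ f hf hG
    obtain ⟨z, hz, hz0⟩ := zero_pt (f g) hG
    have hTe : T.symm e = g := by rw [← hT, T.symm_apply_apply]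
    obtain ⟨x, hx, hx2⟩ := key' (hz.comp (hf.comp T.symm.continuous))
    refine ⟨T.symm (io (vx x)), ?_, ?_⟩
    · show T (T.symm (io (vx x))) ∈ F0
      rw [T.apply_symm_apply]
      intro hi
      rcases (interior_subset (s := {u | C ∅ 1 e u}) hi).2.1 (vx x)
        (Finset.mem_singleton_self _) with h | ⟨w, h, -⟩
      · change 1 ≤ lev x at h; omega
      · simp [e] at h
    · have h1 : z (f (T.symm (io (vx x)))) = z (f (T.symm e)) := hx2
      rw [hTe, (hz0 (f g)).2 rfl] at h1
      exact (hz0 _).1 h1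

/-- products of rectifiable spaces -/
theorem rect_prod {X Y : Type*} [TopologicalSpace X] [TopologicalSpace Y] (hX : Rectifiable X)
    (hY : Rectifiable Y) : Rectifiable (X × Y) := by
  obtain ⟨φ, e, h1, h2⟩ := hX
  obtain ⟨ψ, d, k1, k2⟩ := hY
  refine ⟨((Homeomorph.prodProdProdComm X Y X Y).trans (φ.prodCongr ψ)).trans
    (Homeomorph.prodProdProdComm X X Y Y), (e, d), ?_, ?_⟩
  · rintro ⟨⟨x, y⟩, ⟨x', y'⟩⟩
    exact Prod.ext (h1 (x, x')) (k1 (y, y'))
  · rintro ⟨x, y⟩
    show (((φ (x, x)).1, (ψ (y, y)).1), ((φ (x, x)).2, (ψ (y, y)).2)) = ((x, y), (e, d))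
    rw [h2, k2]

theorem bad_prod {X Y : Type} [TopologicalSpace X] [TopologicalSpace Y] (hY : Bad Y) :
    Bad (X × Y) := by
  constructor
  · rintro U hU ⟨⟨x, y⟩, hxy⟩ hcr
    have hV : IsOpen {z : Y | (x, z) ∈ U} := hU.preimage (Continuous.prodMk_right x)
    refine hY.1 {z : Y | (x, z) ∈ U} hV ⟨y, hxy⟩ ?_
    have hi : IsInducing (fun z : {z : Y | (x, z) ∈ U} => (⟨(x, z.1), z.2⟩ : U)) := by
      refine IsInducing.of_comp (by fun_prop) (continuous_snd.comp continuous_subtype_val) ?_
      exact IsInducing.subtypeVal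
    exact hi.completelyRegularSpace
  · rintro ⟨x, y⟩
    obtain ⟨F, hF, hyF, h⟩ := hY.2 y
    refine ⟨Prod.snd ⁻¹' F, hF.preimage continuous_snd, hyF, fun Z _ _ f hf hG => ?_⟩
    obtain ⟨z, hz, hz2⟩ := h Z (fun z => f (x, z)) (hf.comp (Continuous.prodMk_right x)) hG
    exact ⟨(x, z), hz, hz2⟩

end Pool.Agent.KS6_77.Rectif
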